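import Pool.Agent.R867.C.RandC

/-!
# The Hilbert property of 100% of the everywhere locally soluble conic bundles of multidegree (2, …, 2)

Let `r ≥ 2`, `n i ≥ 1` for all `i < r`, and `n i₀ = 2` for some `i₀`. Among the integral forms `f` of
multidegree `(2, …, 2)` with coefficients bounded by `H` whose hypersurface `X_f` in
`ℙ^(n 0) × ℙ^(n 1) × …` has points over the real numbers and over all the `p`-adic fields, a
proportion tending to `1` as `H → ∞` has the following property: for all number fields `L` (more
generally for all finitely generated fields of characteristic zero), `X_f` is integral over `L` and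
has the Hilbert property over `L`, and so have all the integral schemes locally of finite type over
`L` which are birational to it. For example this holds for 100% of the everywhere locally soluble
threefolds of bidegree `(2, 2)` in `ℙ^2 × ℙ^2`.
-/

set_option autoImplicit false

namespace Pool.Agent.Results.MP_87f965_ag.RandomConicBundles

open AlgebraicGeometry CategoryTheory W560.HP

/-- The forms of multidegree `(2, …, 2)` in `r` blocks of variables, the block `i` having `n i + 1`
variables, whose coefficients are integers of absolute value at most `H`. -/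
def Forms {r : ℕ} (n : Fin r → ℕ) (H : ℕ) : Set (MvPolynomial (Σ i : Fin r, Fin (n i + 1)) ℤ) :=
  {f | (∀ s ∈ f.support, ∀ i : Fin r, ∑ j : Fin (n i + 1), s ⟨i, j⟩ = 2) ∧
    ∀ s, |f.coeff s| ≤ (H : ℤ)}

/-- `x` represents a point over the field `L` of the hypersurface `X_f`: `f = 0` in
`ℙ^(n 0) × ℙ^(n 1) × …`: all its blocks are different from zero and `f(x) = 0`. -/
def IsPoint {r : ℕ} {n : Fin r → ℕ} {L : Type} [Field L]
    (f : MvPolynomial (Σ i : Fin r, Fin (n i + 1)) ℤ)
    (x : (Σ i : Fin r, Fin (n i + 1)) → L) : Prop :=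
  (∀ i : Fin r, (fun j : Fin (n i + 1) => x ⟨i, j⟩) ≠ 0) ∧ MvPolynomial.aeval x f = 0

/-- The hypersurface `X_f` has points over the real numbers and over all the `p`-adic fields. -/
def LocallySoluble {r : ℕ} {n : Fin r → ℕ}
    (f : MvPolynomial (Σ i : Fin r, Fin (n i + 1)) ℤ) : Prop :=
  (∃ y : (Σ i : Fin r, Fin (n i + 1)) → ℝ, IsPoint f y) ∧
    ∀ (p : ℕ) [Fact p.Prime], ∃ z : (Σ i : Fin r, Fin (n i + 1)) → ℚ_[p], IsPoint f z

/-- The form `f` with its coefficients considered as elements of the field `L`. -/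
noncomputable def formOver {r : ℕ} {n : Fin r → ℕ} (L : Type) [Field L]
    (f : MvPolynomial (Σ i : Fin r, Fin (n i + 1)) ℤ) :
    MvPolynomial (Σ i : Fin r, Fin (n i + 1)) L :=
  MvPolynomial.map (Int.castRingHom L) f

/-- `y` is a generic zero of the form `F` over `L`: the polynomials vanishing at `y` are exactly the
multiples of `F`. -/
def GenericZero {r : ℕ} {n : Fin r → ℕ} {L Q : Type} [Field L] [Field Q] [Algebra L Q]
    (F : MvPolynomial (Σ i : Fin r, Fin (n i + 1)) L)
    (y : (Σ i : Fin r, Fin (n i + 1)) → Q) : Prop :=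
  ∀ G : MvPolynomial (Σ i : Fin r, Fin (n i + 1)) L, MvPolynomial.aeval y G = 0 ↔ F ∣ G

/-- The field generated over `L` by the ratios of the coordinates of `y` in the same block. -/
def ratioField {r : ℕ} {n : Fin r → ℕ} (L : Type) {Q : Type} [Field L] [Field Q] [Algebra L Q]
    (y : (Σ i : Fin r, Fin (n i + 1)) → Q) : IntermediateField L Q :=
  IntermediateField.adjoin L {x | ∃ (i : Fin r) (j j' : Fin (n i + 1)), x = y ⟨i, j⟩ / y ⟨i, j'⟩}

/-- The integral `L`-scheme `X` has, compatibly with `L`, the function field of the hypersurface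
`F = 0` in `ℙ^(n 0) × ℙ^(n 1) × …`: the field generated over `L` by the ratios `y i j / y i j'` of
the coordinates of a generic zero `y` of `F`. -/
def BirationalTo {r : ℕ} {n : Fin r → ℕ} (L : Type) [Field L]
    (F : MvPolynomial (Σ i : Fin r, Fin (n i + 1)) L) (X : Scheme.{0}) [IsIntegral X]
    (p : X ⟶ Spec (CommRingCat.of L)) : Prop :=
  ∃ (Q : Type) (_ : Field Q) (_ : Algebra L Q) (y : (Σ i : Fin r, Fin (n i + 1)) → Q),
    GenericZero F y ∧ Pool.Agent.TH178.HI.HasFunctionField L X p (ratioField L y)

/-- The Hilbert property over `L` of the hypersurface `F = 0`, in the form: all the integral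
`L`-schemes `X` locally of finite type which are birational to it have the Hilbert property, with
respect to the covers of degree `> 1`, and also with respect to the covers which are not
isomorphisms if `X` is normal. -/
def Hilbert {r : ℕ} {n : Fin r → ℕ} (L : Type) [Field L]
    (F : MvPolynomial (Σ i : Fin r, Fin (n i + 1)) L) : Prop :=
  ∀ (X : Scheme.{0}) (p : X ⟶ Spec (CommRingCat.of L)) [IsIntegral X] [LocallyOfFiniteType p],
    BirationalTo L F X p → HilbertProperty L X p ∧
      ((∀ x : X, IsIntegrallyClosed (X.presheaf.stalk x)) → HilbertPropertyIso L X p)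

/-- `X_f` is integral and has the Hilbert property over all the finitely generated fields `L` of
characteristic zero, for example over all number fields. -/
def Good {r : ℕ} {n : Fin r → ℕ} (f : MvPolynomial (Σ i : Fin r, Fin (n i + 1)) ℤ) : Prop :=
  ∀ (L : Type) [Field L] [CharZero L],
    (∃ S : Finset L, IntermediateField.adjoin ℚ (S : Set L) = ⊤) →
    Irreducible (formOver L f) ∧ Hilbert L (formOver L f)

theorem scheme_hilb {L K : Type} [Field L] [CharZero L] [Field K] [Algebra L K]
    (hL : ∃ S : Finset L, IntermediateField.adjoin ℚ (S : Set L) = ⊤)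
    (X : Scheme.{0}) (p : X ⟶ Spec (CommRingCat.of L)) [IsIntegral X] [LocallyOfFiniteType p]
    (hX : Pool.Agent.TH178.HI.HasFunctionField L X p K) (h : Pool.Agent.R867.C.HCov L K)
    (h2 : ∃ m : ℕ, Nonempty (K →ₐ[L] FractionRing (MvPolynomial (Fin m) L))) :
    HilbertProperty L X p ∧
      ((∀ x : X, IsIntegrallyClosed (X.presheaf.stalk x)) → HilbertPropertyIso L X p) := by
  obtain ⟨e, he⟩ := hX
  obtain ⟨m, F, hF, hinv, hcov⟩ := h
  obtain ⟨m', ⟨φ⟩⟩ := h2
  have hd := Pool.Agent.Y742.HC.dense_of_uni X p e he φ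
  exact (Pool.Agent.Y742.HC.hilb L hL K X p e he hd F hF hinv).2.1
    (fun M _ _ _ _ _ hk hv _ => hcov M hk hv)

theorem key {r : ℕ} {n : Fin r → ℕ} (f : MvPolynomial (Σ i : Fin r, Fin (n i + 1)) ℤ)
    (hf : Pool.Agent.R867.C.CovH f) : Good f := by
  intro L _ _ hL
  obtain ⟨h1, h2⟩ := hf L
  refine ⟨h1, fun X p _ _ hX => ?_⟩
  obtain ⟨Q, _, _, y, hy, he⟩ := hX
  exact scheme_hilb (K := ratioField L y) hL X p he (h2 Q y hy).1 (h2 Q y hy).2

/-- 100% of the everywhere locally soluble hypersurfaces of multidegree `(2, …, 2)` in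
`ℙ^(n 0) × ℙ^(n 1) × …`, `n i₀ = 2`, `n i ≥ 1`, at least two factors, are integral and have the
Hilbert property over all finitely generated fields of characteristic zero. -/
theorem result (r : ℕ) (n : Fin r → ℕ) (hr : 2 ≤ r) (hn : ∀ i, 1 ≤ n i) (h2 : ∃ i, n i = 2) :
    Filter.Tendsto (fun H : ℕ =>
      (({f | f ∈ Forms n H ∧ LocallySoluble f ∧ Good f} : Set _).ncard : ℝ) /
        (({f | f ∈ Forms n H ∧ LocallySoluble f} : Set _).ncard : ℝ))
      Filter.atTop (nhds 1) := by
  obtain ⟨i₀, h0⟩ := h2
  have h := Pool.Agent.R867.C.randC h0 hr hn Good key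
  have he : ∀ f : MvPolynomial (Σ i : Fin r, Fin (n i + 1)) ℤ,
      Pool.Agent.Y716.M.ElsB f ↔ LocallySoluble f := fun f => Iff.rfl
  refine h.congr (fun H => ?_)
  congr 2

end Pool.Agent.Results.MP_87f965_ag.RandomConicBundles
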