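import Pool.Agent.R70.HC.Main

/-!
# The Hilbert property from rational curves through the general point

Let `X` be a variety over a finitely generated field `k` of characteristic zero whose `k`-points
are dense, and let `K` be its function field. A *family* is a rational curve, defined over `K`,
through the generic point of `X`: an embedding `s : K → K(t)` over `k` with `s(a)(0) = a`. In other
words it is a rational map `F : P^1 × X ⇢ X` over `k` with `F(0, x) = x`. The curves of a family
need not be the fibres of a fibration: if `μ_t` is a family of birational maps of `X` to itself with
a rational parameter, then `F(t, x) = μ_t (μ_0^(-1) x)` is a family.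

The theorem says that the Hilbert property has to be tested only on covers to which all families
lift. Along a divisor which is met by a family with multiplicity `m` such a cover has ramification
indices dividing `m`. Hence `X` has the Hilbert property if every prime divisor on `X` is met by
families with multiplicities without common factor, and `X` has no covers which are unramified in
codimension one.

The proof. Let `x` be a general `k`-point at which finitely many covers have no `k`-point, and let
`Y` be one more cover. If a family does not lift to `Y`, then the cover of the curve through a
general point which is induced by `Y` has no section over the algebraic closure of `K`. By Hilbert's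
irreducibility theorem on the line (several times, with auxiliary parameters) there are points
`F(α, x)` at which none of the covers has a `k`-point: for the old covers, the induced covers of the
curve have no section since there is none at `α = 0`, and for `Y` the absence of sections is an open
condition on `x`. By induction one avoids all the covers.
-/

set_option autoImplicit false

namespace Pool.Agent.Results.MP_87f965_ag.RationalCurves

open AlgebraicGeometry CategoryTheory W560.HP Pool.Agent.R70.HC
open Pool.Agent.Y742.HC (DensePoints)

/-- Let `X` be an integral scheme, locally of finite type over a finitely generated field `k` of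
characteristic zero, with function field `K` and dense `k`-points. Then `X` has the Hilbert property
if every finite extension `M / K`, with `k` algebraically closed in `M`, is trivial as soon as
(1) all families lift to `M`, or (2) the ramification indices of `M / K` over the divisors met by
a family with multiplicity `m` divide `m`, for all families. (3) In particular, `X` has the Hilbert
property if for all prime divisors `P` on `X` and all `n ≥ 2` there is a family which meets `P` with
a multiplicity which is not divisible by `n`, and every finite extension `M / K`, with `k`
algebraically closed in `M`, which is unramified at all prime divisors on `X` is trivial. -/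
theorem result (k : Type) [Field k] [CharZero k]
    (hk : ∃ S : Finset k, IntermediateField.adjoin ℚ (S : Set k) = ⊤)
    (K : Type) [Field K] [Algebra k K]
    (X : Scheme.{0}) (p : X ⟶ Spec (CommRingCat.of k)) [IsIntegral X] [LocallyOfFiniteType p]
    (e : X.functionField ≃+* K) (he : ∀ a : k, e (toFF k X p a) = algebraMap k K a)
    (hd : DensePoints k X p) :
    ((∀ (M : Type) [Field M] [Algebra k M] [Algebra K M] [IsScalarTower k K M]
        [FiniteDimensional K M], (∀ a : M, IsAlgebraic k a → a ∈ Set.range (algebraMap k M)) →
        (∀ s : K →ₐ[k] RatFunc K, IsFamily s → Lifts s M) →
        Function.Surjective (algebraMap K M)) →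
      HilbertProperty k X p ∧
      ((∀ x : X, IsIntegrallyClosed (X.presheaf.stalk x)) → HilbertPropertyIso k X p)) ∧
    ((∀ (M : Type) [Field M] [Algebra k M] [Algebra K M] [IsScalarTower k K M]
        [FiniteDimensional K M], (∀ a : M, IsAlgebraic k a → a ∈ Set.range (algebraMap k M)) →
        (∀ (s : K →ₐ[k] RatFunc K) (P : FF.Place k K) (m : ℕ), IsFamily s → Meets s P m →
          RamificationDvd M P m) →
        Function.Surjective (algebraMap K M)) →
      HilbertProperty k X p ∧
      ((∀ x : X, IsIntegrallyClosed (X.presheaf.stalk x)) → HilbertPropertyIso k X p)) ∧
    ((∀ P : FF.Place k K, PlaceOn k X e P → ∀ n, 2 ≤ n →
        ∃ (s : K →ₐ[k] RatFunc K) (m : ℕ), IsFamily s ∧ Meets s P m ∧ ¬ n ∣ m) →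
      (∀ (M : Type) [Field M] [Algebra k M] [Algebra K M] [IsScalarTower k K M]
        [FiniteDimensional K M], (∀ a : M, IsAlgebraic k a → a ∈ Set.range (algebraMap k M)) →
        (∀ P : FF.Place k K, PlaceOn k X e P → UnramifiedAt M P) →
        Function.Surjective (algebraMap K M)) →
      HilbertProperty k X p ∧
      ((∀ x : X, IsIntegrallyClosed (X.presheaf.stalk x)) → HilbertPropertyIso k X p)) :=
  ⟨scheme_main k hk K X p e he hd, scheme_ram k hk K X p e he hd,
    scheme_unram k hk K X p e he hd⟩

end Pool.Agent.Results.MP_87f965_ag.RationalCurves
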