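import Pool.Agent.R479.NF.Thin

/-!
# MP_87f965_ag: rational points outside thin sets on almost all of the varieties
# `N_{Kᵢ/ℚ}(zᵢ) = cᵢ (f(t) + k)` for abelian fields `Kᵢ`

Let `f` be any integral polynomial of degree at least two in `n + 1` variables, let the `cᵢ` be nonzero
integers, and let the `Kᵢ` be abelian number fields of any degrees (subfields of a cyclotomic field) with
class numbers prime to their degrees, such that `-1` is a norm (for example, if the degree is odd) or all
norms are nonnegative (if the field is imaginary). The varieties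
`V_k : N_{Kᵢ/ℚ}(zᵢ) = cᵢ (f(t) + k) ≠ 0`, `i < r`, are smooth and geometrically rational, so that their
smooth projective models are algebraically simply connected. The fibres of `V_k → 𝔸ⁿ⁺¹`, `(t, z) ↦ t`, are
geometrically integral, and the inverse images in `V_k(ℚ)` of the thin subsets of `𝔸ⁿ⁺¹(ℚ)` are thin. We
show that for almost all `k` the set `V_k(ℚ)` is not contained in such a set: there is a finite set `T₀` of
primes such that for every finite set `T` containing it, every thin subset `Θ` of `𝔸ⁿ⁺¹(ℚ)`, all `N` and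
`U` and all but `X / (log X) ^ U` of the integers `|k| ≤ X` which satisfy the condition at the real place,
every family of `p`-adic points `(t_p, z_p)` of `V_k`, `p` in `T`, with `|t_p| ≤ p ^ N` and
`|f(t_p) + k| ≥ p ^ (-N)`, is approximated (in the coordinates `t`, with precision `p ^ (-N)`) by a
rational point of `V_k` outside `Θ`. If all `cᵢ` are `1` and the degree of `f` is prime to the degrees of the
`Kᵢ`, then `T` can be any finite set of primes, for example the empty set, and the real condition is not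
needed for odd degree: 100% of the `V_k` have rational points outside every given thin set.

Proof. Every polynomial `P(t, w)` without roots `w` in `ℚ(t)` is, up to a factor, a product of irreducible
polynomials of degree at least two in `w` and of nonzero constants. For each of these there are infinitely
many primes `p` and residue classes `a` modulo `p` such that it has no root in `ℚ_p` at the `t` in this
class, and `p` does not divide a given partial derivative of `f` at `a` (Hilbert's irreducibility theorem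
and Chebotarev's theorem; project HB of the starting library). For every `k` there is a point of
`V_k(ℚ_p)` with `t` in this class: if `p` does not divide `f(a) + k` take `t = a`, otherwise choose `t` by
Hensel's lemma such that `f(t) + k` is a power of `p` whose exponent is divisible by all degrees; units are
norms at `p`. Then apply the approximation theorem of `MP_12adaf_nt.AbelianNormForms` to `T` together with
these primes.
-/

set_option autoImplicit false

namespace Pool.Agent.Results.MP_87f965_ag.ThinFamilyNormForms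

open Finset MvPolynomial NumberField Module TensorProduct

instance (p : Nat.Primes) : Fact (p : ℕ).Prime := ⟨p.2⟩

variable {L : Type} [Field L] [NumberField L] {r n : ℕ}

/-- The class number of the field `K` is prime to its degree, and `-1` is a norm or no negative number is
a norm. -/
def Admissible (K : IntermediateField ℚ L) : Prop :=
  (classNumber K).Coprime (finrank ℚ K) ∧
    ((∃ x : K, Algebra.norm ℚ x = -1) ∨ ∀ x : K, 0 ≤ Algebra.norm ℚ x)

/-- The point `(t, z)` with coordinates in the field `F` lies on `V_k`. The coordinates `zᵢ` form an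
element of `F ⊗ Kᵢ`. -/
def OnV (K : Fin r → IntermediateField ℚ L) (f : MvPolynomial (Fin (n + 1)) ℤ) (c : Fin r → ℤ) (k : ℤ)
    {F : Type} [Field F] [Algebra ℚ F] (t : Fin (n + 1) → F) (z : (i : Fin r) → F ⊗[ℚ] (K i)) : Prop :=
  aeval t f + (k : F) ≠ 0 ∧ ∀ i, Algebra.norm F (z i) = (c i : F) * (aeval t f + (k : F))

/-- The polynomials `P(t, w)` in `w`, whose coefficients are integral polynomials in `t₀, …, tₙ`, which
have no root `w` in the field of rational functions `ℚ(t₀, …, tₙ)`. The sets of the rational vectors `t` for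
which one of finitely many such polynomials has a rational root `w`, and their subsets, are the thin
subsets of `𝔸ⁿ⁺¹(ℚ)`. -/
def Covers (n : ℕ) : Set (Polynomial (MvPolynomial (Fin (n + 1)) ℤ)) :=
  {P | ∀ w : FractionRing (MvPolynomial (Fin (n + 1)) ℤ), Polynomial.aeval w P ≠ 0}

/-- The value of `P` at the rational vector `t` and the rational number `w`. -/
noncomputable def value (P : Polynomial (MvPolynomial (Fin (n + 1)) ℤ)) (t : Fin (n + 1) → ℚ) (w : ℚ) : ℚ :=
  P.eval₂ (eval₂Hom (Int.castRingHom ℚ) t) w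

/-- Approximation of level `N` at the primes of `T`, by rational points of `V_k` outside the thin set given
by the polynomials in `Θ`. For `T = ∅` this says that `V_k` has a rational point outside the thin set. -/
def ApproximationOutside (K : Fin r → IntermediateField ℚ L) (f : MvPolynomial (Fin (n + 1)) ℤ)
    (c : Fin r → ℤ) (T : Finset Nat.Primes) (N : ℕ) (Θ : Finset (Polynomial (MvPolynomial (Fin (n + 1)) ℤ)))
    (k : ℤ) : Prop :=
  ∀ (t : (p : Nat.Primes) → Fin (n + 1) → ℚ_[(p : ℕ)])
    (z : (p : Nat.Primes) → (i : Fin r) → ℚ_[(p : ℕ)] ⊗[ℚ] (K i)),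
    (∀ p ∈ T, OnV K f c k (t p) (z p) ∧ (∀ j, ‖t p j‖ ≤ ((p : ℕ) : ℝ) ^ N) ∧
      (((p : ℕ) : ℝ) ^ N)⁻¹ ≤ ‖aeval (t p) f + (k : ℚ_[(p : ℕ)])‖) →
    ∃ (x : Fin (n + 1) → ℚ) (y : (i : Fin r) → ℚ ⊗[ℚ] (K i)), OnV K f c k x y ∧
      (∀ p ∈ T, ∀ j, ‖(x j : ℚ_[(p : ℕ)]) - t p j‖ ≤ (((p : ℕ) : ℝ) ^ N)⁻¹) ∧
      ∀ P ∈ Θ, ∀ w : ℚ, value P x w ≠ 0

/-- The condition at the real place: there is a sign `σ` such that `σ cᵢ > 0` if `-1` is not a norm from
`Kᵢ`, and such that `σ k > 0` or the leading form of `f` takes a value of the sign `σ` at an integral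
vector. -/
def RealCond (K : Fin r → IntermediateField ℚ L) (f : MvPolynomial (Fin (n + 1)) ℤ) (c : Fin r → ℤ) (k : ℤ) :
    Prop :=
  ∃ σ : ℤ, (σ = 1 ∨ σ = -1) ∧ (∀ i, (∃ x : K i, Algebra.norm ℚ x = -1) ∨ 0 < σ * c i) ∧
    (0 < σ * k ∨ ∃ v : Fin (n + 1) → ℤ, 0 < σ * eval v (homogeneousComponent f.totalDegree f))

lemma noRoot_prod (Θ : Finset (Polynomial (MvPolynomial (Fin (n + 1)) ℤ))) (h : ∀ P ∈ Θ, P ∈ Covers n) :
    Pool.Agent.Y214.HB.NoRoot (∏ P ∈ Θ, P) := by
  intro w h0
  unfold Pool.Agent.Y214.HB.toK at h0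
  rw [Polynomial.map_prod, Polynomial.eval_prod, prod_eq_zero_iff] at h0
  obtain ⟨P, hP, h1⟩ := h0
  apply h P hP w
  rw [← h1, Polynomial.eval_map_algebraMap]

lemma value_ne (Θ : Finset (Polynomial (MvPolynomial (Fin (n + 1)) ℤ))) (x : Fin (n + 1) → ℚ) (w : ℚ)
    (h : ((∏ P ∈ Θ, P).map (Pool.Agent.Y214.HB.evQ x)).eval w ≠ 0) : ∀ P ∈ Θ, value P x w ≠ 0 := by
  intro P hP h0
  apply h
  rw [Polynomial.map_prod, Polynomial.eval_prod]
  apply prod_eq_zero hP
  rw [Polynomial.eval_map]
  exact h0

open Classical in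
/-- Almost all of the `V_k` have rational points outside a given thin set, with approximation for the
coordinates `t`. Here `L` is the `m`-th cyclotomic field, and the `Kᵢ` are any of its subfields. In the
second part all `cᵢ` are `1`, and `T` is any finite set of primes. -/
theorem result (m : ℕ) [NeZero m] [IsCyclotomicExtension {m} ℚ L] (K : Fin r → IntermediateField ℚ L)
    (hK : ∀ i, Admissible (K i)) (f : MvPolynomial (Fin (n + 1)) ℤ) (hf : 2 ≤ f.totalDegree) :
    (∀ c : Fin r → ℤ, (∀ i, c i ≠ 0) →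
      ∃ T₀ : Finset Nat.Primes, ∀ T : Finset Nat.Primes, T₀ ⊆ T → ∀ (N U : ℕ)
      (Θ : Finset (Polynomial (MvPolynomial (Fin (n + 1)) ℤ))), (∀ P ∈ Θ, P ∈ Covers n) →
      ∃ X₀ : ℕ, ∀ X : ℕ, X₀ ≤ X →
      (#{k ∈ Icc (-(X : ℤ)) X | ¬ (RealCond K f c k → ApproximationOutside K f c T N Θ k)} : ℝ) ≤
        X / Real.log X ^ U) ∧
    ((∀ i, f.totalDegree.Coprime (finrank ℚ (K i))) →
      (Odd f.totalDegree ∨ ∀ i, ∃ x : K i, Algebra.norm ℚ x = -1) →
      ∀ (T : Finset Nat.Primes) (N U : ℕ) (Θ : Finset (Polynomial (MvPolynomial (Fin (n + 1)) ℤ))),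
      (∀ P ∈ Θ, P ∈ Covers n) → ∃ X₀ : ℕ, ∀ X : ℕ, X₀ ≤ X →
      (#{k ∈ Icc (-(X : ℤ)) X | ¬ ApproximationOutside K f (fun _ => 1) T N Θ k} : ℝ) ≤
        X / Real.log X ^ U) := by
  constructor
  · intro c hc
    obtain ⟨T₀, h⟩ := Pool.Agent.R479.NF.thinA m K (fun i => (hK i).1) (fun i => (hK i).2) f hf c hc
    refine ⟨T₀, fun T hT N U Θ hΘ => ?_⟩
    obtain ⟨X₀, h⟩ := h T hT N U _ (noRoot_prod Θ hΘ)
    refine ⟨X₀, fun X hX => ?_⟩
    obtain ⟨Bad, hB1, hB2⟩ := h X hX
    refine le_trans ?_ hB1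
    have hsub : {k ∈ Icc (-(X : ℤ)) X | ¬ (RealCond K f c k → ApproximationOutside K f c T N Θ k)} ⊆ Bad := by
      intro k hk
      rw [mem_filter, mem_Icc] at hk
      by_contra hkB
      apply hk.2
      intro hr t z hloc
      obtain ⟨x, hx1, hx2, hx3, hx4⟩ := hB2 k (abs_le.2 hk.1) hkB (by
        obtain ⟨σ, hσ, h1, h2⟩ := hr
        refine ⟨σ, hσ, h1, ?_⟩
        simp only [Pool.Agent.TH204.HP.lead_eq]
        exact h2) t (fun p hp => ⟨(hloc p hp).2.1, (hloc p hp).2.2, fun i => ⟨z p i, (hloc p hp).1.2 i⟩⟩)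
      choose y hy using hx3
      refine ⟨x, fun i => (1 : ℚ) ⊗ₜ[ℚ] y i, ⟨hx2, fun i => ?_⟩, hx1, fun P hP w => value_ne Θ x w (hx4 w) P hP⟩
      rw [Pool.Agent.R479.NF.norm_one_tmul_rat, hy i]
    exact_mod_cast card_le_card hsub
  · intro hcop hodd T N U Θ hΘ
    obtain ⟨X₀, h⟩ := Pool.Agent.R479.NF.thinC m K (fun i => (hK i).1) (fun i => (hK i).2) f hf hcop hodd T N U _
      (noRoot_prod Θ hΘ)
    refine ⟨X₀, fun X hX => ?_⟩
    obtain ⟨Bad, hB1, hB2⟩ := h X hX
    refine le_trans ?_ hB1
    have hsub : {k ∈ Icc (-(X : ℤ)) X | ¬ ApproximationOutside K f (fun _ => 1) T N Θ k} ⊆ Bad := by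
      intro k hk
      rw [mem_filter, mem_Icc] at hk
      by_contra hkB
      apply hk.2
      intro t z hloc
      obtain ⟨x, hx1, hx2, hx3, hx4⟩ := hB2 k (abs_le.2 hk.1) hkB t
        (fun p hp => ⟨(hloc p hp).2.1, (hloc p hp).2.2, fun i => ⟨z p i, (hloc p hp).1.2 i⟩⟩)
      choose y hy using hx3
      refine ⟨x, fun i => (1 : ℚ) ⊗ₜ[ℚ] y i, ⟨hx2, fun i => ?_⟩, hx1, fun P hP w => value_ne Θ x w (hx4 w) P hP⟩
      rw [Pool.Agent.R479.NF.norm_one_tmul_rat, hy i]
    exact_mod_cast card_le_card hsub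

end Pool.Agent.Results.MP_87f965_ag.ThinFamilyNormForms
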